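import Pool.Agent.Helper53.PF.St

/-!
# Project PF (MP_ad0dc2_nt): module DGB, the degree of the norm form `N2`
-/

set_option autoImplicit false

namespace PF.Helper80

open Polynomial PF

private theorem dg_g2 {k : Type} [Field k] [CharZero k] (n : k) : (g2 n).natDegree = 3 ∧ g2 n ≠ 0 := by
  have h43 : (4 / 3 : k) ≠ 0 := by norm_num
  have hd : (C (C (n ^ 2)) - X ^ 3 : k[X][X]).natDegree = 3 := by
    have h : (C (C (n ^ 2)) - X ^ 3 : k[X][X]) = -(X ^ 3 - C (C (n ^ 2))) := by ring
    rw [h, natDegree_neg, natDegree_X_pow_sub_C]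
  have h0 : (C (C (n ^ 2)) - X ^ 3 : k[X][X]) ≠ 0 := by
    intro h
    rw [h, natDegree_zero] at hd
    omega
  have hC : (C (C (4 / 3)) : k[X][X]) ≠ 0 := by
    rw [Ne, C_eq_zero, C_eq_zero]
    exact h43
  unfold g2
  refine ⟨?_, mul_ne_zero hC h0⟩
  rw [natDegree_mul hC h0, natDegree_C, hd]

/-- module DGB -/
theorem holds_DGB : PF.StDGB := by
  intro k _ _ κ n p q
  obtain ⟨hg, hg0⟩ := dg_g2 n
  have hc : (cV κ n).natDegree = 0 := by
    unfold cV
    exact natDegree_C _
  by_cases hp : p = 0
  · by_cases hq : q = 0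
    · refine ⟨fun h => absurd ⟨hp, hq⟩ h, ?_⟩
      simp [hp, hq, N2]
    · have hq2 : q ^ 2 ≠ 0 := pow_ne_zero 2 hq
      have e : N2 κ n p q = -(g2 n * q ^ 2) := by
        unfold N2
        rw [hp]
        ring
      have hd : (N2 κ n p q).natDegree = 3 + 2 * q.natDegree := by
        rw [e, natDegree_neg, natDegree_mul hg0 hq2, hg, natDegree_pow]
      refine ⟨fun _ => ?_, ?_⟩
      · rw [e]
        exact neg_ne_zero.2 (mul_ne_zero hg0 hq2)
      · rw [hd, hp, natDegree_zero]
        omega
  · by_cases hq : q = 0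
    · have e : N2 κ n p q = p ^ 2 := by
        unfold N2
        rw [hq]
        ring
      have hd : (N2 κ n p q).natDegree = 2 * p.natDegree := by
        rw [e, natDegree_pow]
      refine ⟨fun _ => ?_, ?_⟩
      · rw [e]
        exact pow_ne_zero 2 hp
      · rw [hd, hq, natDegree_zero]
        omega
    · have hp2 : p ^ 2 ≠ 0 := pow_ne_zero 2 hp
      have hq2 : q ^ 2 ≠ 0 := pow_ne_zero 2 hq
      have d1 : (p ^ 2).natDegree = 2 * p.natDegree := natDegree_pow p 2
      have d2 : (g2 n * q ^ 2).natDegree = 3 + 2 * q.natDegree := by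
        rw [natDegree_mul hg0 hq2, hg, natDegree_pow]
      have d3 : (cV κ n * p * q).natDegree ≤ p.natDegree + q.natDegree := by
        have h1 := natDegree_mul_le (p := cV κ n * p) (q := q)
        have h2 := natDegree_mul_le (p := cV κ n) (q := p)
        omega
      rcases lt_or_ge (2 * q.natDegree + 3) (2 * p.natDegree) with h | h
      · have d4 : (cV κ n * p * q - g2 n * q ^ 2).natDegree < (p ^ 2).natDegree := by
          have h1 := natDegree_sub_le (cV κ n * p * q) (g2 n * q ^ 2)
          have h2 := le_max_iff.1 h1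
          omega
        have e : N2 κ n p q = p ^ 2 + (cV κ n * p * q - g2 n * q ^ 2) := by
          unfold N2
          ring
        have hd : (N2 κ n p q).natDegree = 2 * p.natDegree := by
          rw [e, natDegree_add_eq_left_of_natDegree_lt d4, d1]
        refine ⟨fun _ h0 => ?_, ?_⟩
        · rw [h0, natDegree_zero] at hd
          omega
        · rw [hd]
          omega
      · have d4 : (p ^ 2 + cV κ n * p * q).natDegree < (g2 n * q ^ 2).natDegree := by
          have h1 := natDegree_add_le (p ^ 2) (cV κ n * p * q)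
          have h2 := le_max_iff.1 h1
          omega
        have e : N2 κ n p q = (p ^ 2 + cV κ n * p * q) - g2 n * q ^ 2 := by
          unfold N2
          ring
        have hd : (N2 κ n p q).natDegree = 3 + 2 * q.natDegree := by
          rw [e, natDegree_sub_eq_right_of_natDegree_lt d4, d2]
        refine ⟨fun _ h0 => ?_, ?_⟩
        · rw [h0, natDegree_zero] at hd
          omega
        · rw [hd]
          omega

end PF.Helper80
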