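import Pool.Agent.Helper53.PF.St

/-!
# Project PF (MP_ad0dc2_nt): module LNB, a factorisation of the quartic
-/

set_option autoImplicit false

namespace PF.Helper80

open Polynomial PF

private theorem lnb_evC {k : Type} [Field k] (v y a : k[X]) : ev v y (C a) = a.comp v := by
  simp [ev]

private theorem lnb_evX {k : Type} [Field k] (v y : k[X]) : ev v y X = y := by
  simp [ev]

private theorem lnb_FQ {k : Type} [Field k] (n : k) (D a b c : k[X]) : FQ n D a b c =
    C (3 * X * c ^ 2) * X ^ 4 + C (6 * X * b * c + 4 * D ^ 2) * X ^ 3 + C (3 * X * (b ^ 2 + 2 * a * c)) * X ^ 2 +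
      C (6 * X * a * b) * X + C (3 * X * a ^ 2 + D ^ 2 * (X ^ 3 - C (4 * n))) := by
  unfold FQ
  simp only [map_add, map_mul, map_pow, map_sub, map_ofNat]
  ring

/-- module LNB -/
theorem holds_LNB : PF.StLNB := by
  intro hI k _ _ n s z w hC M hM hM3 hMz D a b c hD
  have hF0 : ev s z (FQ n D a b c) = 0 := by
    unfold FQ
    simp only [map_add, map_mul, map_pow, map_sub, map_ofNat, lnb_evC, lnb_evX, X_comp, C_comp]
    rw [← hD]
    have he := hC.eq
    simp only [map_mul, map_ofNat] at he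
    linear_combination (D.comp s) ^ 2 * he
  have hd4 : (FQ n D a b c).natDegree ≤ 4 := by
    rw [lnb_FQ]
    compute_degree
  have hc4 : (FQ n D a b c).coeff 4 = 3 * X * c ^ 2 := by
    rw [lnb_FQ]
    simp only [coeff_add, coeff_C_mul, coeff_X_pow, coeff_X, coeff_C]
    norm_num
  set F := FQ n D a b c with hF
  have hdiv := modByMonic_add_div F M
  have hR : (F %ₘ M).natDegree ≤ 2 := by
    have h := natDegree_modByMonic_lt F hM (by
      intro h1
      rw [h1, natDegree_one] at hM3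
      omega)
    omega
  have hRe : F %ₘ M = C ((F %ₘ M).coeff 0) + C ((F %ₘ M).coeff 1) * X + C ((F %ₘ M).coeff 2) * X ^ 2 := by
    ext1 i
    rcases i with _ | _ | _ | i
    · simp
    · simp [coeff_X, coeff_C]
    · simp [coeff_X, coeff_C, coeff_X_pow]
    · rw [coeff_eq_zero_of_natDegree_lt (by omega)]
      simp only [coeff_add, coeff_C_mul, coeff_X_pow, coeff_X, coeff_C]
      rw [if_neg (by omega), if_neg (by omega), if_neg (by omega)]
      ring
  have hRz : ev s z (F %ₘ M) = 0 := by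
    have h := congrArg (ev s z) hdiv
    rw [map_add, map_mul, hMz, hF0, zero_mul, add_zero] at h
    exact h
  have hz3 : ¬ 3 ∣ z.natDegree := by
    rw [hC.dz]
    omega
  rw [hRe] at hRz
  simp only [map_add, map_mul, map_pow, lnb_evC, lnb_evX] at hRz
  obtain ⟨e0, e1, e2⟩ := hI k s z _ _ _ hC.ds hz3 hRz
  rw [e0, e1, e2] at hRe
  have hR0 : F %ₘ M = 0 := by
    rw [hRe]
    simp
  rw [hR0, zero_add] at hdiv
  have hQ1 : (F /ₘ M).natDegree ≤ 1 := by
    rw [natDegree_divByMonic F hM]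
    omega
  have hQ := eq_X_add_C_of_natDegree_le_one hQ1
  have hc := coeff_mul_add_eq_of_natDegree_le (f := M) (g := F /ₘ M) hM3.le hQ1
  rw [hdiv] at hc
  have hM3' : M.coeff 3 = 1 := by
    rw [← hM3]
    exact hM
  rw [hM3', one_mul] at hc
  refine ⟨-(F /ₘ M).coeff 0, ?_⟩
  rw [← hc4]
  have h4 : F.coeff 4 = (F /ₘ M).coeff 1 := hc
  rw [h4]
  calc F = M * (F /ₘ M) := hdiv.symm
    _ = M * (C ((F /ₘ M).coeff 1) * X + C ((F /ₘ M).coeff 0)) := by rw [← hQ]
    _ = _ := by rw [map_neg, sub_neg_eq_add]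

end PF.Helper80
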